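import Pool.Agent.X14.QMain

set_option autoImplicit false

namespace Pool.Agent.Results.MP_20c673_nt.ShiftRelation

open Finset Polynomial

noncomputable section

/-- `[p] = 1 + q + ⋯ + q^{p-1}` as a polynomial in the indeterminate `q` -/
def qint (p : ℕ) : ℚ[X] := ∑ i ∈ range p, X ^ i

/-- the indeterminate `q` in `ℚ(q)` -/
def q : RatFunc ℚ := RatFunc.X

/-- `c_k = ∏_{j<k} (1-q^{r+jm})(1-q^{m-r+jm})/(1-q^{(j+1)m})^2` -/
def c (m r k : ℕ) : RatFunc ℚ :=
  ∏ j ∈ range k, ((1 - q ^ ((r : ℤ) + j * m)) * (1 - q ^ ((m : ℤ) - r + j * m))) / (1 - q ^ ((j + 1) * m)) ^ 2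

/-- `S(x) = ∑_{k<p} c_k x^k`, a polynomial in `x` over `ℚ(q)` -/
def S (p m r : ℕ) : (RatFunc ℚ)[X] := ∑ k ∈ range p, C (c m r k) * X ^ k

/-- `T(x) = ∑_{k<p} c_k q^{mk} ∏_{j<k} (1 - x q^{jm})` -/
def T (p m r : ℕ) : (RatFunc ℚ)[X] :=
  ∑ k ∈ range p, C (c m r k * q ^ (m * k)) * ∏ j ∈ range k, (1 - X * C (q ^ (j * m)))

/-- `A ≡ 0 (mod [p]^2)`: every coefficient of `A`, as a reduced fraction, has numerator divisible by `[p]^2` -/
def CongZero (p : ℕ) (A : (RatFunc ℚ)[X]) : Prop := ∀ i : ℕ, (qint p) ^ 2 ∣ (A.coeff i).num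

/-- `⟨-r/m⟩_p` -/
def res (p m r : ℕ) : ℕ := (-(r : ZMod p) * (m : ZMod p)⁻¹).val

/-- the congruence of Q1 with exponent `f` -/
def Cong (p m r : ℕ) (f : ℤ) : Prop := CongZero p (S p m r - C ((-1) ^ (res p m r) * q ^ f) * T p m r)

/-- **Q2.** For every admissible triple `(p,m,r)`, if `f` and `f'` are the exponents belonging to `r` and
to `r + m` then `f' = -f` if `p ∣ r` and `f' = f - r` if `p ∤ r`. (The exponents exist and are unique.) -/
theorem result : ∀ p m r : ℕ, p.Prime → p ≠ 2 → 1 ≤ m → 1 ≤ r → ¬ m ∣ r → ¬ p ∣ m →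
    ∃ f f' : ℤ, (∀ g : ℤ, Cong p m r g ↔ g = f) ∧ (∀ g : ℤ, Cong p m (r + m) g ↔ g = f') ∧
      (p ∣ r → f' = -f) ∧ (¬ p ∣ r → f' = f - r) := by
  intro p m r hp h2 hm _ _ hpm
  obtain ⟨hn, hnr⟩ := Pool.Agent.X14.QMain.res_spec (r := r) hp hpm
  obtain ⟨hn', hnr'⟩ := Pool.Agent.X14.QMain.res_spec (r := r + m) hp hpm
  obtain ⟨h, hh⟩ : ∃ h, p = 2 * h + 1 := by
    rcases hp.eq_two_or_odd' with h | h
    · exact absurd h h2
    · exact h
  have hh2 : (p - 1) / 2 = h := by omega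
  refine ⟨_, _, fun f => Pool.Agent.X14.QMain.main hp h2 hm hpm hn hnr f,
    fun f => Pool.Agent.X14.QMain.main hp h2 hm hpm hn' hnr' f, ?_, ?_⟩
  · intro hr
    have e1 := Pool.Agent.X14.QMain.res_unique (r := r) (n := 0) hp hpm hp.pos (by simpa using hr)
    have e2 := Pool.Agent.X14.QMain.res_unique (r := r + m) (n := p - 1) hp hpm (by have := hp.pos; omega) (by
      have : r + m + (p - 1) * m = r + p * m := by
        obtain ⟨s, rfl⟩ : ∃ s, p = s + 1 := ⟨p - 1, by have := hp.pos; omega⟩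
        rw [Nat.add_sub_cancel]; ring
      rw [this]
      exact (Nat.dvd_add_right hr).2 (dvd_mul_right _ _))
    rw [e1, e2]
    unfold Pool.Agent.X14.QMain.fexp
    rw [hh2]
    have e3 : (p - 1) * (p - 1 + 1) / 2 = h * (2 * h + 1) := by
      have : (p - 1) * (p - 1 + 1) = 2 * (h * (2 * h + 1)) := by
        rw [show p - 1 = 2 * h by omega]; ring
      rw [this]; omega
    have e4 : ((p - 1 : ℕ) : ℤ) = 2 * h := by omega
    rw [e3, e4]
    push_cast
    ring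
  · intro hr
    set n := (-(r : ZMod p) * (m : ZMod p)⁻¹).val with hndef
    have hn0 : n ≠ 0 := by
      intro h0
      rw [h0, zero_mul, add_zero] at hnr
      exact hr hnr
    obtain ⟨s, hs⟩ : ∃ s, n = s + 1 := ⟨n - 1, by omega⟩
    have e2 := Pool.Agent.X14.QMain.res_unique (r := r + m) (n := s) hp hpm (by omega) (by
      have : r + m + s * m = r + n * m := by rw [hs]; ring
      rw [this]; exact hnr)
    rw [e2, hs]
    unfold Pool.Agent.X14.QMain.fexp
    rw [hh2]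
    have a1 : s * (s + 1) / 2 * 2 = s * (s + 1) := Nat.div_mul_cancel (Nat.even_mul_succ_self s).two_dvd
    have a2 : (s + 1) * (s + 1 + 1) / 2 * 2 = (s + 1) * (s + 1 + 1) := Nat.div_mul_cancel (Nat.even_mul_succ_self (s + 1)).two_dvd
    have a3 : (s + 1) * (s + 1 + 1) / 2 = s * (s + 1) / 2 + (s + 1) := by nlinarith
    rw [a3]
    push_cast
    ring

end

end Pool.Agent.Results.MP_20c673_nt.ShiftRelation
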