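import Pool.Agent.X14.QMain

set_option autoImplicit false

namespace Pool.Agent.Results.MP_20c673_nt.UniqueExponent

open Finset Polynomial

noncomputable section

/-- `[p] = 1 + q + ⋯ + q^{p-1}` as a polynomial in the indeterminate `q` -/
def qint (p : ℕ) : ℚ[X] := ∑ i ∈ range p, X ^ i

/-- the indeterminate `q` in `ℚ(q)` -/
def q : RatFunc ℚ := RatFunc.X

/-- `c_k = ∏_{j<k} (1-q^{r+jm})(1-q^{m-r+jm})/(1-q^{(j+1)m})^2` -/
def c (m r k : ℕ) : RatFunc ℚ :=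
  ∏ j ∈ range k, ((1 - q ^ ((r : ℤ) + j * m)) * (1 - q ^ ((m : ℤ) - r + j * m))) / (1 - q ^ ((j + 1) * m)) ^ 2

/-- `S(x) = ∑_{k<p} c_k x^k`, a polynomial in `x` over `ℚ(q)` -/
def S (p m r : ℕ) : (RatFunc ℚ)[X] := ∑ k ∈ range p, C (c m r k) * X ^ k

/-- `T(x) = ∑_{k<p} c_k q^{mk} ∏_{j<k} (1 - x q^{jm})` -/
def T (p m r : ℕ) : (RatFunc ℚ)[X] :=
  ∑ k ∈ range p, C (c m r k * q ^ (m * k)) * ∏ j ∈ range k, (1 - X * C (q ^ (j * m)))

/-- `A ≡ 0 (mod [p]^2)`: every coefficient of `A`, as a reduced fraction, has numerator divisible by `[p]^2` -/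
def CongZero (p : ℕ) (A : (RatFunc ℚ)[X]) : Prop := ∀ i : ℕ, (qint p) ^ 2 ∣ (A.coeff i).num

/-- `⟨-r/m⟩_p` -/
def res (p m r : ℕ) : ℕ := (-(r : ZMod p) * (m : ZMod p)⁻¹).val

/-- the congruence of Q1 with exponent `f` -/
def Cong (p m r : ℕ) (f : ℤ) : Prop := CongZero p (S p m r - C ((-1) ^ (res p m r) * q ^ f) * T p m r)

/-- **Q1.** For every admissible triple `(p,m,r)` there is exactly one integer `f` for which the
congruence holds; moreover, with `n = ⟨-r/m⟩_p`, it is `f = ((r+nm)(2n+1-p) - mn(n+1))/2`. -/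
theorem result : ∀ p m r : ℕ, p.Prime → p ≠ 2 → 1 ≤ m → 1 ≤ r → ¬ m ∣ r → ¬ p ∣ m →
    (∃! f : ℤ, Cong p m r f) ∧
    (∀ f : ℤ, Cong p m r f → 2 * f = ((r : ℤ) + (res p m r) * m) * (2 * (res p m r : ℤ) + 1 - p) -
      m * (res p m r) * ((res p m r : ℤ) + 1)) := by
  intro p m r hp h2 hm _ _ hpm
  obtain ⟨hn, hnr⟩ := Pool.Agent.X14.QMain.res_spec (r := r) hp hpm
  have key : ∀ f : ℤ, Cong p m r f ↔ f = Pool.Agent.X14.QMain.fexp p m r (res p m r) :=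
    fun f => Pool.Agent.X14.QMain.main hp h2 hm hpm hn hnr f
  refine ⟨⟨_, (key _).2 rfl, fun f hf => (key f).1 hf⟩, ?_⟩
  intro f hf
  rw [(key f).1 hf]
  unfold Pool.Agent.X14.QMain.fexp
  generalize res p m r = n
  obtain ⟨h, hh⟩ : ∃ h, p = 2 * h + 1 := by
    rcases hp.eq_two_or_odd' with h | h
    · exact absurd h h2
    · exact h
  have hh2 : (p - 1) / 2 = h := by omega
  have a1 : n * (n + 1) / 2 * 2 = n * (n + 1) := Nat.div_mul_cancel (Nat.even_mul_succ_self n).two_dvd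
  have a2 : (((n * (n + 1) / 2 : ℕ)) : ℤ) * 2 = n * (n + 1) := by exact_mod_cast a1
  rw [hh2, hh]
  push_cast
  push_cast at a2
  linear_combination (-(m : ℤ)) * a2

end

end Pool.Agent.Results.MP_20c673_nt.UniqueExponent
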